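import Mathlib
import Pool.Agent.R821.BohrBoolean

/-!
# A precompact abelian group which is no quotient of a reflexive precompact group

Negative answer to Q2: the countable Boolean group with its Bohr topology (the coarsest topology which
makes all homomorphisms to `ℤ/2` continuous) is not a quotient, and not even a continuous homomorphic
image, of any reflexive precompact abelian group. The proof is in `Pool.Agent.R821.BohrBoolean`, where
the two definitions `Precompact` and `Reflexive` are given as well.
-/

set_option autoImplicit false

namespace Pool.Agent.Results.MP_329fc6_gt.NotQuotientOfReflexive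

universe u

open Pool.Agent.R821

/-- **Negative answer to Q2.** There is a precompact Hausdorff abelian group `H` such that for every
reflexive precompact Hausdorff abelian group `G`: no continuous homomorphism of `G` to `H` is
surjective, and for every closed subgroup `N` of `G` the quotient group `G ⧸ N` is not topologically
isomorphic to `H`. -/
theorem result : ∃ (H : Type) (_ : CommGroup H) (_ : TopologicalSpace H)
    (_ : IsTopologicalGroup H) (_ : T2Space H), Precompact H ∧
    ∀ (G : Type u) [CommGroup G] [TopologicalSpace G] [IsTopologicalGroup G] [T2Space G],
      Precompact G → Reflexive G →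
        (∀ π : G →* H, Continuous π → ¬ Function.Surjective π) ∧
        ∀ N : Subgroup G, IsClosed (N : Set G) → IsEmpty ((G ⧸ N) ≃ₜ* H) := by
  obtain ⟨H, i1, i2, i3, i4, h1, h2⟩ := exists_not_image.{u}
  refine ⟨H, i1, i2, i3, i4, h1, ?_⟩
  intro G _ _ _ _ hG hR
  refine ⟨fun π hπ => h2 G hG hR π hπ, fun N _ => ⟨fun e => ?_⟩⟩
  refine h2 G hG hR ((e : (G ⧸ N) →* H).comp (QuotientGroup.mk' N)) ?_ ?_
  · exact e.continuous.comp QuotientGroup.continuous_mk
  · exact e.surjective.comp (QuotientGroup.mk'_surjective N)

end Pool.Agent.Results.MP_329fc6_gt.NotQuotientOfReflexive
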